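import Pool.Agent.Q287.NU3

/-! # Uncovered vertices of nearest neighbour trees under random insertion order

Vertices are `0, …, n-1`, vertex `i` being the `i`-th inserted point, at position `y i` of the
`d`-dimensional torus. -/

namespace Pool.Agent.Results.MP_bfac84_pr.UncoveredPolynomial

open Pool.Agent.Q287 Finset

/-- the distance of the unit torus `ℝ^d/ℤ^d` induced by the Euclidean norm: the root of the sum of
the squares of the coordinatewise circle distances -/
noncomputable def tdist {d : ℕ} (x y : Fin d → UnitAddCircle) : ℝ :=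
  Real.sqrt (∑ i, dist (x i) (y i) ^ 2)

/-- `p` is the parent of `x`: among the vertices inserted before `x` it is at the smallest distance
from `x`, and it is the first inserted such vertex -/
def IsParent {d n : ℕ} (y : Fin n → Fin d → UnitAddCircle) (p x : Fin n) : Prop :=
  p < x ∧ (∀ j, j < x → tdist (y x) (y p) ≤ tdist (y x) (y j)) ∧
    (∀ j, j < p → tdist (y x) (y p) < tdist (y x) (y j))

/-- adjacency in the nearest neighbour tree -/
def Adj {d n : ℕ} (y : Fin n → Fin d → UnitAddCircle) (a b : Fin n) : Prop :=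
  IsParent y a b ∨ IsParent y b a

/-- directly covered vertices: the parent `p` of `x` has a neighbour `q ≠ x` such that `y x` lies
in the lens of `y p` and `y q` -/
def DirectlyCovered {d n : ℕ} (y : Fin n → Fin d → UnitAddCircle) (x : Fin n) : Prop :=
  ∃ p, IsParent y p x ∧ ∃ q, q ≠ x ∧ Adj y p q ∧ tdist (y x) (y p) < tdist (y p) (y q) ∧
    tdist (y x) (y q) < tdist (y p) (y q)

/-- covered vertices: the directly covered vertices and their descendants -/
def Covered {d n : ℕ} (y : Fin n → Fin d → UnitAddCircle) (x : Fin n) : Prop :=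
  ∃ z, DirectlyCovered y z ∧ Relation.ReflTransGen (IsParent y) z x

/-- the number of uncovered vertices -/
noncomputable def numUncovered {d n : ℕ} (y : Fin n → Fin d → UnitAddCircle) : ℕ :=
  Nat.card {x : Fin n // ¬ Covered y x}

/-- the mean number of uncovered vertices when the points `S 0, …, S (n-1)` are inserted in
uniformly random order -/
noncomputable def meanUncovered {d n : ℕ} (S : Fin n → Fin d → UnitAddCircle) : ℝ :=
  (∑ σ : Equiv.Perm (Fin n), (numUncovered (fun i => S (σ i)) : ℝ)) / (n.factorial : ℝ)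

/-- the positions of the words in the torus -/
noncomputable def posn (d L : ℕ) (w : NU.W L) (j : Fin d) : UnitAddCircle :=
  if h : j.1 < 17 then ((1 / 100 * NU.P L true w ⟨j.1, h⟩ : ℝ) : UnitAddCircle) else 0

lemma tdist_posn {d : ℕ} (hd : 17 ≤ d) {L : ℕ} (u v : NU.W L) :
    tdist (posn d L u) (posn d L v) = 1 / 100 * ‖NU.P L true u - NU.P L true v‖ := by
  obtain ⟨e, rfl⟩ := Nat.exists_eq_add_of_le hd
  unfold tdist
  rw [Fin.sum_univ_add]
  have h2 : ∑ i : Fin e, dist (posn (17 + e) L u (Fin.natAdd 17 i))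
      (posn (17 + e) L v (Fin.natAdd 17 i)) ^ 2 = 0 := by
    apply Finset.sum_eq_zero
    intro i _
    unfold posn
    simp
  have h1 : ∀ i : Fin 17, dist (posn (17 + e) L u (Fin.castAdd e i))
      (posn (17 + e) L v (Fin.castAdd e i)) ^ 2 =
      (1 / 100) ^ 2 * ‖(NU.P L true u - NU.P L true v) i‖ ^ 2 := by
    intro i
    have hi : (Fin.castAdd e i).1 < 17 := by simp
    unfold posn
    rw [dif_pos hi, dif_pos hi, dist_eq_norm, ← AddCircle.coe_sub]
    have hb : |1 / 100 * NU.P L true u i - 1 / 100 * NU.P L true v i| ≤ |(1:ℝ)| / 2 := by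
      have h3 := PiLp.norm_apply_le (NU.P L true u - NU.P L true v) i
      have h4 := NU.norm_P_sub true u v
      rw [Real.norm_eq_abs] at h3
      have h5 : 1 / 100 * NU.P L true u i - 1 / 100 * NU.P L true v i =
        1 / 100 * (NU.P L true u - NU.P L true v) i := by
        rw [PiLp.sub_apply]; ring
      rw [h5, abs_mul, abs_of_pos (by norm_num : (0:ℝ) < 1 / 100), abs_one]
      linarith
    have := (AddCircle.norm_coe_eq_abs_iff (1:ℝ) (by norm_num)).2 hb
    have e1 : (⟨(Fin.castAdd e i).1, hi⟩ : Fin 17) = i := by ext; simp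
    rw [e1]
    erw [this]
    rw [PiLp.sub_apply, Real.norm_eq_abs, sq_abs, sq_abs]
    ring
  rw [h2, add_zero, Finset.sum_congr rfl (fun i _ => h1 i), ← Finset.mul_sum,
    Real.sqrt_mul (by positivity), Real.sqrt_sq (by norm_num), ← EuclideanSpace.norm_eq]

lemma posn_injective {d : ℕ} (hd : 17 ≤ d) (L : ℕ) : Function.Injective (posn d L) := by
  intro u v huv
  apply NU.P_injective L true
  have h1 := tdist_posn hd u v
  rw [huv] at h1
  have h2 : tdist (posn d L v) (posn d L v) = 0 := by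
    unfold tdist
    simp
  rw [h2] at h1
  have h3 : ‖NU.P L true u - NU.P L true v‖ = 0 := by linarith
  exact sub_eq_zero.1 (norm_eq_zero.1 h3)

lemma tdist_comm {d : ℕ} (x y : Fin d → UnitAddCircle) : tdist x y = tdist y x := by
  unfold tdist
  simp only [dist_comm]

/-- an enumeration of the words -/
noncomputable def enum (L : ℕ) : NU.W L ≃ Fin (8 ^ L) :=
  (Fintype.equivFinOfCardEq (NU.card_W L))

/-- the point set -/
noncomputable def pts (d L : ℕ) (i : Fin (8 ^ L)) : Fin d → UnitAddCircle :=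
  posn d L ((enum L).symm i)

lemma numUncovered_ge {d : ℕ} (hd : 17 ≤ d) (L : ℕ) (σ : Equiv.Perm (Fin (8 ^ L))) :
    NU.G L (fun w => ((σ⁻¹ (enum L w) : Fin (8 ^ L)) : ℕ)) ≤
      numUncovered (fun i => pts d L (σ i)) := by
  classical
  set y : Fin (8 ^ L) → Fin d → UnitAddCircle := fun i => pts d L (σ i) with hy
  set D : Fin (8 ^ L) → Fin (8 ^ L) → ℝ := fun a b => tdist (y a) (y b) with hD
  set ι : NU.W L → Fin (8 ^ L) := fun w => σ⁻¹ (enum L w) with hι
  have hbij : Function.Bijective ι := (σ⁻¹).bijective.comp (enum L).bijective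
  have hdist : ∀ u v, D (ι u) (ι v) = 1 / 100 * ‖NU.P L true u - NU.P L true v‖ := by
    intro u v
    rw [← tdist_posn hd u v]
    have hs : ∀ x, σ (σ⁻¹ x) = x := fun x => σ.apply_symm_apply x
    simp only [hD, hy, hι, pts, hs, Equiv.symm_apply_apply]
  obtain ⟨hg, hs⟩ := NU.good_all hbij (by norm_num) hdist
  have h1 := NU.count (fun a b => tdist_comm _ _) L true _ ι hg hs
  refine h1.trans ?_
  unfold numUncovered
  rw [← Fintype.card_subtype, Fintype.card_eq_nat_card]
  apply Nat.card_le_card_of_injective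
    (fun w : {w : NU.W L // ¬ NU.Cov D (ι w)} =>
      (⟨ι w.1, w.2⟩ : {x : Fin (8 ^ L) // ¬ Covered y x}))
  intro w w' hww
  have := congrArg Subtype.val hww
  exact Subtype.ext (hbij.1 this)

lemma mean_ge {d : ℕ} (hd : 17 ≤ d) (L : ℕ) : (21 / 20 : ℝ) ^ L ≤ meanUncovered (pts d L) := by
  unfold meanUncovered
  rw [le_div_iff₀ (by positivity)]
  have h1 := NU.sum_G L (fun w => ((enum L w : Fin (8 ^ L)) : ℕ))
    (fun u v h => (enum L).injective (Fin.ext h))
  refine h1.trans ?_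
  have h2 : ∑ g : Equiv.Perm (NU.W L), (NU.G L (fun v => ((enum L (g v) : Fin (8 ^ L)) : ℕ)) : ℝ) =
      ∑ σ : Equiv.Perm (Fin (8 ^ L)),
        (NU.G L (fun w => ((σ⁻¹ (enum L w) : Fin (8 ^ L)) : ℕ)) : ℝ) := by
    rw [← Equiv.sum_comp (Equiv.inv (Equiv.Perm (Fin (8 ^ L))))
      (fun σ => (NU.G L (fun w => ((σ⁻¹ (enum L w) : Fin (8 ^ L)) : ℕ)) : ℝ)),
      ← Equiv.sum_comp (Equiv.permCongr (enum L))]
    apply Finset.sum_congr rfl
    intro g _
    simp only [Equiv.inv_apply, inv_inv, Equiv.permCongr_apply, Equiv.symm_apply_apply]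
  rw [h2]
  apply Finset.sum_le_sum
  intro σ _
  exact_mod_cast numUncovered_ge hd L σ

lemma beats_log (C k : ℝ) : ∃ L : ℕ, 1 ≤ L ∧ C * Real.log ((8 ^ L : ℕ) : ℝ) ^ k <
    (21 / 20 : ℝ) ^ L := by
  set K : ℕ := ⌈|k|⌉₊ with hK
  have ht := tendsto_pow_const_div_const_pow_of_one_lt K (by norm_num : (1:ℝ) < 21 / 20)
  have ht2 := ht.const_mul (|C| * (Real.log 8) ^ K)
  rw [mul_zero] at ht2
  have hev := ht2.eventually (gt_mem_nhds (by norm_num : (0:ℝ) < 1))
  obtain ⟨L, hL, hL1⟩ := (hev.and (Filter.eventually_ge_atTop 1)).exists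
  refine ⟨L, hL1, ?_⟩
  have hlog8 : 1 ≤ Real.log 8 := by
    rw [Real.le_log_iff_exp_le (by norm_num)]
    linarith [Real.exp_one_lt_d9]
  have hLr : (1:ℝ) ≤ L := by exact_mod_cast hL1
  have hlog : Real.log ((8 ^ L : ℕ) : ℝ) = L * Real.log 8 := by
    push_cast
    rw [Real.log_pow]
  have h1 : 1 ≤ (L : ℝ) * Real.log 8 := by nlinarith
  have h2 : Real.log ((8 ^ L : ℕ) : ℝ) ^ k ≤ ((L : ℝ) * Real.log 8) ^ K := by
    rw [hlog, ← Real.rpow_natCast]
    apply Real.rpow_le_rpow_of_exponent_le h1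
    exact (le_abs_self k).trans (Nat.le_ceil _)
  have h3 : 0 ≤ Real.log ((8 ^ L : ℕ) : ℝ) ^ k := by
    apply Real.rpow_nonneg
    rw [hlog]
    linarith
  have hpos : (0:ℝ) < (21 / 20 : ℝ) ^ L := by positivity
  have h4 : |C| * Real.log 8 ^ K * ((L:ℝ) ^ K / (21 / 20 : ℝ) ^ L) < 1 := hL
  rw [← mul_div_assoc, div_lt_one hpos] at h4
  calc C * Real.log ((8 ^ L : ℕ) : ℝ) ^ k ≤ |C| * Real.log ((8 ^ L : ℕ) : ℝ) ^ k :=
        mul_le_mul_of_nonneg_right (le_abs_self C) h3
    _ ≤ |C| * ((L : ℝ) * Real.log 8) ^ K := mul_le_mul_of_nonneg_left h2 (abs_nonneg _)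
    _ = |C| * Real.log 8 ^ K * (L:ℝ) ^ K := by rw [mul_pow]; ring
    _ < _ := h4

lemma poly_ge (L : ℕ) : (((8 ^ L : ℕ) : ℝ)) ^ (1 / 50 : ℝ) ≤ (21 / 20 : ℝ) ^ L := by
  have h8 : (8:ℝ) ^ (1 / 50 : ℝ) ≤ 21 / 20 := by
    have h1 : ((8:ℝ) ^ (1 / 50 : ℝ)) ^ (50 : ℕ) ≤ (21 / 20 : ℝ) ^ (50 : ℕ) := by
      rw [← Real.rpow_natCast, ← Real.rpow_mul (by norm_num)]
      norm_num
    exact le_of_pow_le_pow_left₀ (by norm_num) (by norm_num) h1
  push_cast
  rw [← Real.rpow_natCast 8 L, ← Real.rpow_mul (by norm_num), mul_comm, Real.rpow_mul (by norm_num),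
    Real.rpow_natCast]
  exact pow_le_pow_left₀ (by positivity) h8 L

/-- For every `d ≥ 17` the mean number of uncovered vertices is not bounded by a power of the
logarithm uniformly over the point sets: for `n = 8 ^ L` there are `n` points of the torus for which
the mean over the uniformly random insertion order is at least `n ^ (1/50)`. -/
theorem result :
    (∀ d : ℕ, 17 ≤ d → ∀ L : ℕ, ∃ S : Fin (8 ^ L) → Fin d → UnitAddCircle,
      Function.Injective S ∧ (((8 ^ L : ℕ) : ℝ)) ^ (1 / 50 : ℝ) ≤ meanUncovered S) ∧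
    (∀ d : ℕ, 17 ≤ d → ∀ C k : ℝ, ∃ n : ℕ, 2 ≤ n ∧ ∃ S : Fin n → Fin d → UnitAddCircle,
      Function.Injective S ∧ C * Real.log n ^ k < meanUncovered S) ∧
    ¬ (∀ d : ℕ, 1 ≤ d → ∃ C k : ℝ, ∀ n : ℕ, 2 ≤ n → ∀ S : Fin n → Fin d → UnitAddCircle,
      Function.Injective S → meanUncovered S ≤ C * Real.log n ^ k) := by
  have hinj : ∀ d : ℕ, 17 ≤ d → ∀ L : ℕ, Function.Injective (pts d L) := fun d hd L =>
    (posn_injective hd L).comp (enum L).symm.injective
  have h2 : ∀ d : ℕ, 17 ≤ d → ∀ C k : ℝ, ∃ n : ℕ, 2 ≤ n ∧ ∃ S : Fin n → Fin d → UnitAddCircle,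
      Function.Injective S ∧ C * Real.log n ^ k < meanUncovered S := by
    intro d hd C k
    obtain ⟨L, hL, hlt⟩ := beats_log C k
    refine ⟨8 ^ L, ?_, pts d L, hinj d hd L, hlt.trans_le (mean_ge hd L)⟩
    calc 2 ≤ 8 ^ 1 := by norm_num
      _ ≤ 8 ^ L := Nat.pow_le_pow_right (by norm_num) hL
  refine ⟨?_, h2, ?_⟩
  · intro d hd L
    exact ⟨pts d L, hinj d hd L, (poly_ge L).trans (mean_ge hd L)⟩
  · intro h
    obtain ⟨C, k, hCk⟩ := h 17 (by norm_num)
    obtain ⟨n, hn, S, hS, hlt⟩ := h2 17 le_rfl C k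
    exact absurd hlt (not_lt.2 (hCk n hn S hS))

end Pool.Agent.Results.MP_bfac84_pr.UncoveredPolynomial
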